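import Mathlib
import Pool.Agent.Run7.h608.SM.Disc

set_option autoImplicit false

/-!
# The orbits of the standard map are equidistributed at all late times, up to a small set of points

Let `S_a (x, y) = (2x - y + a sin 2πx, x)` on the torus.  For EVERY parameter with `|a| ≥ 1`, every power
`T = S_a ^ q`, every `n₀ ≥ 1` and every `η ∈ (0, 1]`: outside a set of initial points of area at most

  `C η ^ (-5) (1 / n₀ + (q / |a|) ^ (1/3))`

the orbit `p, T p, …, T ^ (n-1) p` has, for ALL times `n ≥ n₀` at once, discrepancy at most `η`, that is: the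
frequency of its visits to each box `[0, s) × [0, t)` differs from the area of the box by at most `η`.

Ergodicity of `S_a` would say this with the term `(q / |a|) ^ (1/3)` replaced by `0` (and `1 / n₀` by
something tending to `0`).  So `S_a` and its powers are ergodic up to an error which tends to `0` when `|a|`
tends to infinity, for all parameters and at all times.

Proof: decay of correlations up to the time `|a| ^ (1/3)`, a mean square bound for averages of this
length, and the maximal ergodic theorem for the square of such an average.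
-/

open Real MeasureTheory

namespace Pool.Agent.Results.MP_9ee088_an.AllTimeEquidistribution

/-- The torus `ℝ² / ℤ²`, with its Lebesgue measure `volume`. -/
abbrev Torus := UnitAddCircle × UnitAddCircle

/-- `T` is the standard map `S_a` of the torus. -/
def IsStandardMap (a : ℝ) (T : Torus → Torus) : Prop :=
  ∀ x y : ℝ, T ((x : UnitAddCircle), (y : UnitAddCircle)) =
    (((2 * x - y + a * sin (2 * π * x) : ℝ) : UnitAddCircle), (x : UnitAddCircle))

/-- The box `[0, s) × [0, t)` in the torus. -/
def Box (s t : ℝ) : Set Torus :=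
  {p | ∃ x ∈ Set.Ico (0:ℝ) s, ∃ y ∈ Set.Ico (0:ℝ) t, p = ((x : UnitAddCircle), (y : UnitAddCircle))}

/-- The number of `k < n` such that `T ^ (q k) p` lies in the box `[0, s) × [0, t)`. -/
noncomputable def visits (T : Torus → Torus) (q n : ℕ) (s t : ℝ) (p : Torus) : ℕ :=
  {k : ℕ | k < n ∧ T^[q * k] p ∈ Box s t}.ncard

theorem visits_eq (a : ℝ) (q n : ℕ) (s t : ℝ) (p : Torus) :
    (visits (Pool.Agent.TH705.SM.S a) q n s t p : ℝ) = Run7.h608.SM.visits a q s t n p := by
  classical
  unfold visits Run7.h608.SM.visits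
  have h1 : {k : ℕ | k < n ∧ (Pool.Agent.TH705.SM.S a)^[q * k] p ∈ Box s t} =
      ((Finset.range n).filter fun k => (Pool.Agent.TH705.SM.S a)^[q * k] p ∈ Box s t : Finset ℕ) := by
    ext k
    simp
  rw [h1, Set.ncard_coe_finset, Finset.card_filter]
  push_cast
  apply Finset.sum_congr rfl
  intro k _
  unfold Run7.h608.SM.ib
  by_cases h : (Pool.Agent.TH705.SM.S a)^[q * k] p ∈ Box s t
  · have h' : (Pool.Agent.TH705.SM.S a)^[q * k] p ∈ Run7.h608.SM.Box s t := h
    rw [if_pos h, Set.indicator_of_mem h']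
  · have h' : (Pool.Agent.TH705.SM.S a)^[q * k] p ∉ Run7.h608.SM.Box s t := h
    rw [if_neg h, Set.indicator_of_notMem h']

/-- There is a constant `C` such that for all real `a` with `|a| ≥ 1`, all `q, n₀ ≥ 1` and all
`η ∈ (0, 1]`, the points `p` for which at some time `n ≥ n₀` the frequency of the visits of
`p, T p, …, T ^ (n-1) p`, where `T = S_a ^ q`, to some box differs from the area of the box by more than `η`
form a set of area at most `C η ^ (-5) (1 / n₀ + (q / |a|) ^ (1/3))`. -/
theorem result : ∃ C : ℝ, 0 < C ∧ ∀ a : ℝ, 1 ≤ |a| → ∀ T : Torus → Torus, IsStandardMap a T →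
    ∀ q n₀ : ℕ, 1 ≤ q → 1 ≤ n₀ → ∀ η : ℝ, 0 < η → η ≤ 1 →
      volume {p : Torus | ∃ n : ℕ, n₀ ≤ n ∧ ∃ s ∈ Set.Icc (0:ℝ) 1, ∃ t ∈ Set.Icc (0:ℝ) 1,
          η < |(visits T q n s t p : ℝ) / n - s * t|} ≤
        ENNReal.ofReal (C / η ^ 5 * (1 / n₀ + (q / |a|) ^ ((1:ℝ) / 3))) := by
  refine ⟨346112 * Run7.h608.SM.C3, mul_pos (by norm_num) Run7.h608.SM.C3_pos, ?_⟩
  intro a ha T hT q n₀ hq hn₀ η hη hη1
  have hTS : T = Pool.Agent.TH705.SM.S a := Pool.Agent.TH705.SM.eq_S a T hT
  have h := Run7.h608.SM.disc_all ha hq hn₀ hη hη1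
  refine le_trans (measure_mono ?_) h
  rintro p ⟨n, hn, s, hs, t, ht, hp⟩
  refine ⟨n, hn, s, hs, t, ht, ?_⟩
  rwa [hTS, visits_eq] at hp

end Pool.Agent.Results.MP_9ee088_an.AllTimeEquidistribution
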