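import Mathlib
import Pool.Agent.Run7.h608.SM.Bes2

set_option autoImplicit false

/-!
# The standard map mixes boxes with EVERY square integrable function, at most times

Let `S_a (x, y) = (2x - y + a sin 2πx, x)` on the torus, `|a| ≥ 1` (NO parameter is excluded), `q ≥ 1`,
`T = S_a ^ q`.  For every function `f ∈ L²`, every box `B = [0, s) × [0, t)` and every window
`m, m + 1, …, m + n - 1` of times,

  `∑ |∫_{T^{-k} B} f - area(B) ∫ f| ^ 2 ≤ C (1 + n (q / |a|) ^ (1/3)) ∫ |f - ∫ f| ^ 2`   (sum over the window).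

So among any `(|a| / q) ^ (1/3)` consecutive times, however late, all but at most `2 C / ε²` satisfy
`|m(A ∩ T^{-k} B) - m(A) m(B)| ≤ ε √(m(A))`, for an arbitrary measurable set `A`.  In particular
eigenfunctions of `T` (invariant functions and invariant sets among them) are evenly distributed over all
boxes, up to `√C (q / |a|) ^ (1/6)` times their standard deviation: `S_a` is ergodic, totally ergodic and weakly
mixing up to an error which tends to `0` as `|a| → ∞`, for all parameters.

The point is that `f` is arbitrary: finite-time correlation bounds for smooth functions alone say nothing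
about invariant sets, which may be arbitrarily wild.
-/

open Real MeasureTheory

namespace Pool.Agent.Results.MP_9ee088_an.CorrelationBessel

/-- The torus `ℝ² / ℤ²`, with its Lebesgue measure `volume`. -/
abbrev Torus := UnitAddCircle × UnitAddCircle

/-- `T` is the standard map `S_a` of the torus. -/
def IsStandardMap (a : ℝ) (T : Torus → Torus) : Prop :=
  ∀ x y : ℝ, T ((x : UnitAddCircle), (y : UnitAddCircle)) =
    (((2 * x - y + a * sin (2 * π * x) : ℝ) : UnitAddCircle), (x : UnitAddCircle))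

/-- The box `[0, s) × [0, t)` in the torus. -/
def Box (s t : ℝ) : Set Torus :=
  {p | ∃ x ∈ Set.Ico (0:ℝ) s, ∃ y ∈ Set.Ico (0:ℝ) t, p = ((x : UnitAddCircle), (y : UnitAddCircle))}

/-- There is a constant `C` such that for all real `a` with `|a| ≥ 1`, all `q ≥ 1`, all `f ∈ L²` and all boxes:
the Bessel inequality of the file header holds for all windows, and if `f` is an eigenfunction of
`S_a ^ q` then its integral over the box is the expected one up to
`√C (q / |a|) ^ (1/6)` times the standard deviation of `f`. -/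
theorem result : ∃ C : ℝ, 0 < C ∧ ∀ a : ℝ, 1 ≤ |a| → ∀ T : Torus → Torus, IsStandardMap a T →
    ∀ q : ℕ, 1 ≤ q → ∀ f : Torus → ℂ, MemLp f 2 volume →
      ∀ s ∈ Set.Icc (0:ℝ) 1, ∀ t ∈ Set.Icc (0:ℝ) 1,
        (∀ m n : ℕ, ∑ k ∈ Finset.range n,
            ‖(∫ p in T^[q * (m + k)] ⁻¹' Box s t, f p) - ((s * t : ℝ) : ℂ) * ∫ p, f p‖ ^ 2 ≤
          C * (1 + n * (q / |a|) ^ ((1:ℝ) / 3)) * ∫ p, ‖f p - ∫ p', f p'‖ ^ 2) ∧
        (∀ lam : ℂ, ‖lam‖ = 1 → (∀ᵐ p, f (T^[q] p) = lam * f p) →
          ‖(∫ p in Box s t, f p) - ((s * t : ℝ) : ℂ) * ∫ p, f p‖ ^ 2 ≤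
            C * (q / |a|) ^ ((1:ℝ) / 3) * ∫ p, ‖f p - ∫ p', f p'‖ ^ 2) := by
  have h3 := Run7.h608.SM.C3_pos
  have h2 := Run7.h608.SM.C2_pos
  refine ⟨Run7.h608.SM.C3 + Run7.h608.SM.C2, by positivity, ?_⟩
  intro a ha T hT q hq f hf s hs t ht
  have hTS : T = Pool.Agent.TH705.SM.S a := Pool.Agent.TH705.SM.eq_S a T hT
  have hV0 : 0 ≤ ∫ p, ‖f p - ∫ p', f p'‖ ^ 2 := integral_nonneg fun p => by positivity
  have hr0 : 0 ≤ ((q:ℝ) / |a|) ^ ((1:ℝ) / 3) := by positivity
  subst hTS
  constructor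
  · intro m n
    refine (Run7.h608.SM.bessel_all ha hq m n hf hs.1 hs.2 ht.1 ht.2).trans ?_
    apply mul_le_mul_of_nonneg_right _ hV0
    apply mul_le_mul_of_nonneg_right _ (by positivity)
    linarith
  · intro lam hlam hinv
    have h := Run7.h608.SM.eig_final ha hq hlam hf hinv hs.1 hs.2 ht.1 ht.2
    have h4 := pow_le_pow_left₀ (norm_nonneg _) h 2
    have e1 : Run7.h608.SM.C2 / Run7.h608.SM.tau a q =
        Run7.h608.SM.C2 * ((q:ℝ) / |a|) ^ ((1:ℝ) / 3) := by
      have e2 : 1 / Run7.h608.SM.tau a q = ((q:ℝ) / |a|) ^ ((1:ℝ) / 3) := by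
        unfold Run7.h608.SM.tau
        rw [one_div, ← inv_rpow (by positivity), inv_div]
      rw [← e2]; ring
    rw [e1, mul_pow, sq_sqrt (by positivity), sq_sqrt hV0] at h4
    refine h4.trans ?_
    apply mul_le_mul_of_nonneg_right _ hV0
    apply mul_le_mul_of_nonneg_right _ hr0
    linarith

end Pool.Agent.Results.MP_9ee088_an.CorrelationBessel
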