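import Mathlib
import Pool.Agent.Run7.h408.SME

/-!
# The standard map is close to a Bernoulli shift in total variation, up to times `o(√|a|)`

Let `S_a (x, y) = (2 x - y + a sin 2πx, x)`, `|a| ≥ 1` (no parameter is excluded), and divide the
circle into `N` arcs. Let `x = n N / √|a|`.

(1) For EVERY `y`, the word of length `n` of a random point of the horizontal circle at height `y`
(the arcs visited by the first coordinates at the times `0, …, n - 1`) is independent and distributed
according to the lengths of the arcs, up to an error `C x` in total variation.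
(2) The same for the itinerary of a random point of the torus through the `N ^ 2` boxes.
(3) Any square integrable function (any measurable set) becomes independent of the word of length `n`
at the times `r, r + n, r + 2 n, …`, in the mean square and in total variation; so (4) invariant sets
and functions are distributed evenly over all cylinders of length `n` simultaneously.
(5) The entropy of the `n`-th refinement of the partition into `N ^ 2` equal boxes is at least
`(1 - C x) ((n + 1) log N - log 2)`.

Method. On a horizontal line, the coordinates `x_k` of the orbit are functions of `x_1 = t` which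
oscillate faster and faster. An arbitrary function of the smoothed arcs of `x_1, …, x_m`, times a
cut-off of the critical strips, is a slowly varying weight for the integral of `φ_i(x_(m+1)) - c_i`;
integration by parts (tools of the starting library: cut-offs, distortion and density bounds) gives an
error `O(1 / √|a|)` times the total variation of one coordinate, which is at most `2 N` and does not
depend on the smoothing. The symbols are replaced one at a time by independent ones. Blocks of
length `n` at different times are then nearly orthogonal and Bessel's inequality gives (3).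
-/

set_option autoImplicit false

open Real MeasureTheory

namespace Pool.Agent.Results.MP_9ee088_an.FiniteTimeBernoulli

/-- The torus `ℝ² / ℤ²`, with its Lebesgue measure `volume`. -/
abbrev Torus := UnitAddCircle × UnitAddCircle

/-- `T` is the standard map `S_a` of the torus. -/
def IsStandardMap (a : ℝ) (T : Torus → Torus) : Prop :=
  ∀ x y : ℝ, T ((x : UnitAddCircle), (y : UnitAddCircle)) =
    (((2 * x - y + a * sin (2 * π * x) : ℝ) : UnitAddCircle), (x : UnitAddCircle))

/-- The points `e 0 ≤ e 1 ≤ … ≤ e N = e 0 + 1` divide the circle into `N` arcs. -/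
structure Division (N : ℕ) (e : ℕ → ℝ) : Prop where
  mono : Monotone e
  last : e N = e 0 + 1

/-- The `i`-th arc, the image of `(e i, e (i + 1)]` in the circle. -/
def Arc (e : ℕ → ℝ) (i : ℕ) : Set UnitAddCircle :=
  (fun x : ℝ => (x : UnitAddCircle)) '' Set.Ioc (e i) (e (i + 1))

/-- The product of the lengths of the arcs of a word. -/
noncomputable def weight {N n : ℕ} (e : ℕ → ℝ) (w : Fin n → Fin N) : ℝ :=
  ∏ k, (e (w k + 1) - e (w k))

/-- The cylinder of a word: the first coordinates at the times `0, …, n - 1` are in the arcs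
`w 0, …, w (n - 1)`. -/
def cyl {N n : ℕ} (T : Torus → Torus) (e : ℕ → ℝ) (w : Fin n → Fin N) : Set Torus :=
  {p | ∀ k : Fin n, (T^[k] p).1 ∈ Arc e (w k)}

/-- The cylinder of an itinerary through boxes: for each `k < n` the point `T^k p` is in the box with
first side the arc `w (k + 1)` and second side the arc `w k`. (The second coordinate at time `k` is
the first coordinate at time `k - 1`.) -/
def boxCyl {N n : ℕ} (T : Torus → Torus) (e : ℕ → ℝ) (w : Fin (n + 1) → Fin N) : Set Torus :=
  {p | ∀ k : Fin n, (T^[k] p).1 ∈ Arc e (w k.succ) ∧ (T^[k] p).2 ∈ Arc e (w k.castSucc)}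

open Run7.h408.SM in
theorem cyl_eq {a : ℝ} {T : Torus → Torus} (hT : T = Pool.Agent.TH705.SM.S a) {N n : ℕ} {e : ℕ → ℝ}
    (h : Arcs N e) (w : Fin n → Fin N) : cyl T e w = {p | W h a n p = w} := by
  subst hT
  ext p
  unfold cyl
  simp only [Set.mem_setOf_eq]
  rw [funext_iff]
  refine forall_congr' fun k => ?_
  have h1 := mem_iff h (((Pool.Agent.TH705.SM.S a)^[k] p).1) (w k)
  exact h1.trans eq_comm

open Run7.h408.SM in
theorem boxCyl_eq {a : ℝ} {T : Torus → Torus} (hT : T = Pool.Agent.TH705.SM.S a) {N n : ℕ}
    (hn : 1 ≤ n) {e : ℕ → ℝ} (h : Arcs N e) (w : Fin (n + 1) → Fin N) :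
    boxCyl T e w = {p | W2 h a n p = w} := by
  subst hT
  ext p
  unfold boxCyl
  simp only [Set.mem_setOf_eq]
  have hs : ∀ (z : UnitAddCircle) (i : Fin N), z ∈ Arc e i ↔ code h z = i := fun z i =>
    (mem_iff h z i).trans eq_comm
  simp only [hs]
  constructor
  · intro h1
    funext k
    refine Fin.cases ?_ (fun k => ?_) k
    · exact (h1 ⟨0, hn⟩).2
    · exact (h1 k).1
  · rintro rfl k
    refine ⟨rfl, ?_⟩
    obtain ⟨k, hk⟩ := k
    cases k with
    | zero => rfl
    | succ j =>
      have e1 : (Fin.castSucc (⟨j + 1, hk⟩ : Fin n)) = Fin.succ (⟨j, by omega⟩ : Fin n) := rfl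
      rw [e1]
      show code h (((Pool.Agent.TH705.SM.S a)^[j + 1] p).2) =
        code h (((Pool.Agent.TH705.SM.S a)^[j] p).1)
      rw [Function.iterate_succ_apply']
      rfl

/-- **The standard map and the Bernoulli shift.** -/
theorem result : ∃ C : ℝ, 0 < C ∧ ∀ (a : ℝ) (T : Torus → Torus), 1 ≤ |a| → IsStandardMap a T →
    ∀ (N n : ℕ) (e : ℕ → ℝ), 1 ≤ N → 1 ≤ n → Division N e →
    -- (1) words on every horizontal circle
    (∀ y : UnitAddCircle, ∑ w : Fin n → Fin N,
      |(volume {x : UnitAddCircle | (x, y) ∈ cyl T e w}).toReal - weight e w| ≤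
        C * (n * N / √|a|)) ∧
    -- (2) itineraries through the boxes
    ∑ w : Fin (n + 1) → Fin N, |(volume (boxCyl T e w)).toReal - weight e w| ≤
      C * (n * N / √|a|) ∧
    -- (3) arbitrary square integrable functions and the word at the times `r + j n`
    (∀ f : Torus → ℝ, MemLp f 2 volume → ∀ r J : ℕ,
      ∑ j : Fin J, (∑ w : Fin n → Fin N,
        |(∫ p in {p | T^[r + j * n] p ∈ cyl T e w}, f p) - weight e w * ∫ p, f p|) ^ 2 ≤
          (4 + C * J ^ 2 * (n * N / √|a|)) * ∫ p, f p ^ 2) ∧
    -- (4) invariant functions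
    (∀ f : Torus → ℝ, MemLp f 2 volume → (∀ᵐ p, f (T p) = f p) →
      (∑ w : Fin n → Fin N, |(∫ p in cyl T e w, f p) - weight e w * ∫ p, f p|) ^ 2 ≤
        C * √(n * N / √|a|) * ∫ p, f p ^ 2) ∧
    -- (5) the entropy of the refinements of the partition into equal boxes
    (2 ≤ N → (∀ i, e i = i / N) →
      (1 - C * (n * N / √|a|)) * ((n + 1) * log N - log 2) ≤
        ∑ w : Fin (n + 1) → Fin N, negMulLog (volume (boxCyl T e w)).toReal) := by
  have hC := Run7.h408.SM.CC_pos
  refine ⟨4 * (1 + 2 * Run7.h408.SM.CC), by positivity, ?_⟩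
  intro a T ha hT N n e hN hn hdiv
  have hTS : T = Pool.Agent.TH705.SM.S a := Pool.Agent.TH705.SM.eq_S a T hT
  have h : Run7.h408.SM.Arcs N e := ⟨hdiv.mono, hdiv.last⟩
  have hx : 0 ≤ (n : ℝ) * N / √|a| := by positivity
  have hle : Run7.h408.SM.CC * (n * N / √|a|) ≤
      4 * (1 + 2 * Run7.h408.SM.CC) * (n * N / √|a|) :=
    mul_le_mul_of_nonneg_right (by linarith) hx
  have hcyl : ∀ w : Fin n → Fin N, cyl T e w = {p | Run7.h408.SM.W h a n p = w} := fun w =>
    cyl_eq hTS h w
  have hbox : ∀ w : Fin (n + 1) → Fin N, boxCyl T e w = {p | Run7.h408.SM.W2 h a n p = w} :=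
    fun w => boxCyl_eq hTS hn h w
  have h2 : ∑ w : Fin (n + 1) → Fin N, |(volume (boxCyl T e w)).toReal - weight e w| ≤
      Run7.h408.SM.CC * (n * N / √|a|) := by
    simp only [hbox]
    exact Run7.h408.SM.tv_le volume (Run7.h408.SM.W2_meas h a n) fun Φ hΦ =>
      Run7.h408.SM.boxes h ha hN hΦ
  refine ⟨fun y => ?_, h2.trans hle, fun f hf r J => ?_, fun f hf hinv => ?_, fun hN2 he => ?_⟩
  · refine le_trans ?_ hle
    simp only [hcyl]
    have hm : Measurable fun x : UnitAddCircle => Run7.h408.SM.W h a n (x, y) :=
      (Run7.h408.SM.W_meas h a n).comp (measurable_id.prodMk measurable_const)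
    exact Run7.h408.SM.tv_le volume hm fun Φ hΦ => Run7.h408.SM.line h ha hN hΦ y
  · have h3 := Run7.h408.SM.l2 h ha hN n hf r J
      (K := Run7.h408.SM.CC * (J * (n * N / √|a|))) (by positivity) (fun _ => by
        refine le_of_eq ?_
        push_cast
        ring)
    have h4 : ∀ (j : Fin J) (w : Fin n → Fin N),
        (∫ p in {p | T^[r + j * n] p ∈ cyl T e w}, f p) - weight e w * ∫ p, f p =
          Run7.h408.SM.dev h a n (r + j * n) f w := by
      intro j w
      rw [hcyl, hTS]
      rfl
    simp only [h4]
    refine h3.trans (mul_le_mul_of_nonneg_right ?_ (integral_nonneg fun p => sq_nonneg _))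
    have h5 : 4 * (1 + (J : ℝ) * (Run7.h408.SM.CC * (J * (n * N / √|a|)))) =
        4 + 4 * Run7.h408.SM.CC * J ^ 2 * (n * N / √|a|) := by ring
    rw [h5]
    have h6 : 4 * Run7.h408.SM.CC * J ^ 2 * (n * N / √|a|) ≤
        4 * (1 + 2 * Run7.h408.SM.CC) * J ^ 2 * (n * N / √|a|) := by
      apply mul_le_mul_of_nonneg_right _ hx
      apply mul_le_mul_of_nonneg_right _ (by positivity)
      linarith
    linarith
  · have h3 := Run7.h408.SM.inv h ha hN hn hf (by rw [hTS] at hinv; exact hinv)
    have h4 : ∀ w : Fin n → Fin N, (∫ p in cyl T e w, f p) - weight e w * ∫ p, f p =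
        Run7.h408.SM.dev h a n 0 f w := by
      intro w
      rw [hcyl]
      rfl
    simp only [h4]
    exact h3
  · have hNr : (2:ℝ) ≤ N := by exact_mod_cast hN2
    have hM : (2:ℝ) ≤ (N : ℝ) ^ (n + 1) := by
      calc (2:ℝ) ≤ N := hNr
        _ = (N : ℝ) ^ 1 := (pow_one _).symm
        _ ≤ (N : ℝ) ^ (n + 1) := pow_le_pow_right₀ (by linarith) (by omega)
    have hw : ∀ w : Fin (n + 1) → Fin N, weight e w = 1 / (N : ℝ) ^ (n + 1) := by
      intro w
      unfold weight
      simp only [he]
      have h5 : ∀ k, (((w k : ℕ) + 1 : ℕ) : ℝ) / N - ((w k : ℕ) : ℝ) / N = 1 / N := by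
        intro k
        push_cast
        ring
      simp only [h5]
      rw [Finset.prod_const, Finset.card_univ, Fintype.card_fin, one_div, one_div, inv_pow]
    have h3 := Run7.h408.SM.entropy (p := fun w : Fin (n + 1) → Fin N =>
      (volume (boxCyl T e w)).toReal) (fun w => ENNReal.toReal_nonneg)
      (fun w => by
        have h4 : volume (boxCyl T e w) ≤ 1 := prob_le_one
        exact ENNReal.toReal_le_of_le_ofReal zero_le_one (by simpa using h4))
      (M := (N : ℝ) ^ (n + 1)) (K := Run7.h408.SM.CC * (n * N / √|a|)) hM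
      (by simp) (by
        simp only [hw] at h2
        exact h2)
    rw [Real.log_pow] at h3
    refine le_trans ?_ h3
    have hL : 0 ≤ ((n:ℝ) + 1) * log N - log 2 := by
      have h5 := Real.log_le_log (by norm_num) hM
      rw [Real.log_pow] at h5
      push_cast at h5
      linarith
    push_cast
    exact mul_le_mul_of_nonneg_right (by linarith) hL

end Pool.Agent.Results.MP_9ee088_an.FiniteTimeBernoulli
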