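import Pool.Agent.Run7.h425.RN.Main

set_option autoImplicit false

/-!
# The Lyapunov exponent of the standard map with very small noise, for every parameter

`S_a (x, y) = (2x - y + a sin 2πx, x)` on the torus; `X_(n+1) = S_a (X_n) + (ω_n, 0)` with
independent identically distributed `ω_n` whose law has density at most `D` on the circle
(`D = 1 / (2ε)` for the uniform law on `[-ε, ε]`), and `X_0` uniformly distributed.  For EVERY `a`
with `|a| ≥ 1` and `(1 + log|a|)² (1 + log|a| + log D) ≤ a²` and for ALL `n ≥ 1` the mean of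
`(1/n) log ‖D(S_a^n)‖` along the noisy orbit is `log (π|a|)` up to

  `C (|a|^(-1/4) + ((1 + log|a|)² (1 + log|a| + log D) / a²)^(1/3))`,

and the same holds for its limit, the Lyapunov exponent.  So the exponent is `log (π|a|)` up to any
given accuracy for every large `|a|` as soon as the noise is larger than `exp(-c a² / log²|a|)`, and
up to `o(1)` for noise `exp(-a² / log³|a|)`.  Blumenthal, Xue and Young (Ann. of Math. 185, 2017)
proved that the exponent is at least `(1 - δ) log|a|` for noise larger than `exp(-|a|^(1-β))` and,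
for parameters `a` outside a small set, larger than `exp(-|a|^(2-β))`; here no parameter is excluded,
the noise is smaller and the exponent is determined up to `o(1)`.

The proof: the orbit of length `N` stays out of the region `|g(x) g(y)| < K`, `g = 2 + 2πa cos 2πx`
(area `O(K log|a| / a²)`), up to a probability `O(N K log|a| / a²)`, and there the norm of the
derivative is nearly the product of the `|g|`, whatever the noise; this gives the mean exponent for
`N ≪ a² / log²|a|`.  The noise makes the mean of `log ‖D(S_a^n)‖` nearly superadditive: a gap of four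
steps and an additive constant `O(log|a| + log D)` suffice, since after four steps the position has
density at most `D⁴` and two free steps turn the matrix product into one with bounded negative moments,
uniformly in the directions of the past and the future.

The proof is in `Pool/Agent/Run7/h425/RN/` (statements of the pieces in `Iface.lean`; plan, assembly:
helper425); the pieces were proved by helper227, helper544, helper91, helper600, helper417, helper633,
helper929, helper760, helper888 and helper425.
-/

open Real MeasureTheory Filter Topology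

namespace Pool.Agent.Results.MP_9ee088_an.SmallNoiseExponent

/-- The map `(x, y) ↦ S_a (x, y) + (s, 0) = (2x - y + a sin 2πx + s, x)`, lifted to the plane. -/
noncomputable def noisyMap (a s : ℝ) (q : ℝ × ℝ) : ℝ × ℝ :=
  (2 * q.1 - q.2 + a * sin (2 * π * q.1) + s, q.1)

/-- The composition of the first `n` noisy maps, with the noise `ω 0, ..., ω (n - 1)`. -/
noncomputable def noisyIter (a : ℝ) (ω : ℕ → ℝ) : ℕ → ℝ × ℝ → ℝ × ℝ
  | 0 => id
  | n + 1 => noisyMap a (ω n) ∘ noisyIter a ω n

/-- The mean of the exponent `(1/n) log ‖D (noisyIter a ω n)‖` at time `n`: the noise `ω i` is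
independent with the law `ν`, the starting point is uniformly distributed in the unit square. -/
noncomputable def meanExponent (a : ℝ) (ν : Measure ℝ) [IsProbabilityMeasure ν] (n : ℕ) : ℝ :=
  (∫ ω, (∫ q in Set.Icc (0 : ℝ) 1 ×ˢ Set.Icc (0 : ℝ) 1, log ‖fderiv ℝ (noisyIter a ω n) q‖)
    ∂(Measure.infinitePi fun _ : ℕ => ν)) / n

/-- The law `ν` of the noise, taken modulo 1, has density at most `D`. -/
def DensityLE (ν : Measure ℝ) (D : ℝ) : Prop :=
  ν.map (fun s : ℝ => (s : UnitAddCircle)) ≤ ENNReal.ofReal D • (volume : Measure UnitAddCircle)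

/-- The uniform law on `[-ε, ε]` has density at most `1 / (2ε)` modulo 1, if `ε ≤ 1/2`. -/
theorem uniform_noise (ε : ℝ) (h0 : 0 < ε) (h1 : ε ≤ 1 / 2) :
    DensityLE (ENNReal.ofReal (1 / (2 * ε)) • volume.restrict (Set.Icc (-ε) ε)) (1 / (2 * ε)) :=
  Run7.h425.RN.uniform_le ε h0 h1

theorem iter_eq (a : ℝ) (ω : ℕ → ℝ) (n : ℕ) : noisyIter a ω n = Run7.h425.RN.pIter a ω n := by
  induction n with
  | zero => rfl
  | succ n ih =>
    show noisyMap a (ω n) ∘ noisyIter a ω n = Run7.h425.RN.pStep a (ω n) ∘ Run7.h425.RN.pIter a ω n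
    rw [ih]
    rfl

theorem mean_eq (a : ℝ) (ν : Measure ℝ) [IsProbabilityMeasure ν]
    [IsProbabilityMeasure (ν.map (fun s : ℝ => (s : UnitAddCircle)))] (n : ℕ) :
    meanExponent a ν n = Run7.h425.RN.Lam a (ν.map (fun s : ℝ => (s : UnitAddCircle))) n / n := by
  unfold meanExponent
  rw [← Run7.h425.RN.mean_eq Run7.h425.RN.hCONT a ν n]
  simp_rw [iter_eq]

/-- **The Lyapunov exponent of the standard map with small noise, for every parameter.** -/
theorem result : ∃ C : ℝ, 0 < C ∧
    ∀ (ν : Measure ℝ) [IsProbabilityMeasure ν] (D : ℝ), DensityLE ν D →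
    ∀ a : ℝ, 1 ≤ |a| → (1 + log |a|) ^ 2 * (1 + log |a| + log D) ≤ a ^ 2 →
      -- at all times
      (∀ n : ℕ, 1 ≤ n → |meanExponent a ν n - log (π * |a|)| ≤
        C * (|a| ^ (-(1 / 4) : ℝ) +
          ((1 + log |a|) ^ 2 * (1 + log |a| + log D) / a ^ 2) ^ (1 / 3 : ℝ))) ∧
      -- in the limit
      ∃ lam : ℝ, Tendsto (fun n : ℕ => meanExponent a ν n) atTop (𝓝 lam) ∧
        |lam - log (π * |a|)| ≤ C * (|a| ^ (-(1 / 4) : ℝ) +
          ((1 + log |a|) ^ 2 * (1 + log |a| + log D) / a ^ 2) ^ (1 / 3 : ℝ)) := by
  obtain ⟨C, hC, h⟩ := Run7.h425.RN.main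
  refine ⟨C, hC, ?_⟩
  intro ν _ D hD a ha h1
  have hm : Measurable (fun s : ℝ => (s : UnitAddCircle)) :=
    (AddCircle.continuous_mk' 1).measurable
  have : IsProbabilityMeasure (ν.map (fun s : ℝ => (s : UnitAddCircle))) :=
    Measure.isProbabilityMeasure_map hm.aemeasurable
  have h2 := h (ν.map (fun s : ℝ => (s : UnitAddCircle))) D hD a ha h1
  simp_rw [mean_eq]
  exact h2

end Pool.Agent.Results.MP_9ee088_an.SmallNoiseExponent
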